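import Mathlib

set_option linter.unusedSectionVars false

/-!
# MP_424b19: Max-start versus Min-start toppling game values

For every finite connected graph `G` that is not a tree, `T_max(G)` is even and `T_min(G)` is
odd, i.e. Min makes the last move in both games.  In particular `T_max(G) ≠ T_min(G)`.
-/

namespace Pool.Agent.Results.MP_424b19_co.MinMovesLast

open Finset Relation

variable {V : Type} [Fintype V] [DecidableEq V] (G : SimpleGraph V) [DecidableRel G.Adj]

/-- A configuration assigns a nonnegative number of tokens to each vertex. -/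
abbrev Config (V : Type) := V → ℕ

/-- `v` is ready when it holds at least `deg v` tokens. -/
def Ready (c : Config V) (v : V) : Prop := G.degree v ≤ c v

/-- Toppling `v` moves one of its tokens to each neighbour of `v`. -/
def topple (c : Config V) (v : V) : Config V := fun w =>
  if w = v then c v - G.degree v else if G.Adj v w then c w + 1 else c w

/-- One toppling of a ready vertex. -/
def Topples (c c' : Config V) : Prop := ∃ v, Ready G c v ∧ c' = topple G c v

/-- No vertex is ready. -/
def Stable (c : Config V) : Prop := ∀ v, ¬ Ready G c v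

/-- The toppling phase started at `c` stops, at the configuration `c'`. -/
def StabilizesTo (c c' : Config V) : Prop := ReflTransGen (Topples G) c c' ∧ Stable G c'

/-- Put one new token on `v`. -/
def addToken (c : Config V) (v : V) : Config V := fun w => if w = v then c w + 1 else c w

/-- The two players. -/
inductive Player
  | Max
  | Min

/-- `Forces G k p c`: when player `p` is to move at the configuration `c`, Max can force that
at least `k` more turns are played (every turn that starts is counted, also the final one, after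
whose move the toppling phase does not stop). -/
def Forces : ℕ → Player → Config V → Prop
  | 0, _, _ => True
  | 1, _, _ => True
  | k + 2, Player.Max, c => ∃ v, ∃ c', StabilizesTo G (addToken c v) c' ∧
      Forces (k + 1) Player.Min c'
  | k + 2, Player.Min, c => ∀ v, ∃ c', StabilizesTo G (addToken c v) c' ∧
      Forces (k + 1) Player.Max c'

/-- The value of the toppling game on `G` when player `p` takes the first turn: the largest
number of turns that Max can force (the game starts with no tokens). -/
noncomputable def value (p : Player) : ℕ := sSup {k | Forces G k p (fun _ => 0)}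

/-! ### Laplacian -/

/-- Laplacian of an integer function. -/
def Lap (f : V → ℤ) (w : V) : ℤ := ∑ u, if G.Adj w u then f w - f u else 0

theorem Lap_add (f g : V → ℤ) (w : V) : Lap G (fun u => f u + g u) w = Lap G f w + Lap G g w := by
  unfold Lap
  rw [← Finset.sum_add_distrib]
  refine Finset.sum_congr rfl fun u _ => ?_
  split_ifs <;> ring

theorem Lap_sub (f g : V → ℤ) (w : V) : Lap G (fun u => f u - g u) w = Lap G f w - Lap G g w := by
  unfold Lap
  rw [← Finset.sum_sub_distrib]
  refine Finset.sum_congr rfl fun u _ => ?_
  split_ifs <;> ring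

theorem sum_Lap (f : V → ℤ) : ∑ w, Lap G f w = 0 := by
  have h1 : ∑ w, Lap G f w = ∑ w, ∑ u, if G.Adj w u then f w - f u else 0 := rfl
  have h2 : ∑ w, Lap G f w = ∑ w, ∑ u, if G.Adj w u then f u - f w else 0 := by
    rw [h1, Finset.sum_comm]
    refine Finset.sum_congr rfl fun u _ => Finset.sum_congr rfl fun w _ => ?_
    simp only [G.adj_comm w u]
  have h3 : ∑ w, Lap G f w + ∑ w, Lap G f w = 0 := by
    nth_rewrite 1 [h1]
    rw [h2, ← Finset.sum_add_distrib]
    apply Finset.sum_eq_zero
    intro w _
    rw [← Finset.sum_add_distrib]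
    apply Finset.sum_eq_zero
    intro u _
    split_ifs <;> ring
  omega

/-- indicator -/
def ind (x : V) : V → ℤ := fun w => if w = x then 1 else 0

theorem Lap_ind_self (v : V) : Lap G (ind v) v = G.degree v := by
  unfold Lap ind
  have h : ∀ u, (if G.Adj v u then ((if v = v then (1 : ℤ) else 0) - if u = v then 1 else 0) else 0)
      = if G.Adj v u then (1 : ℤ) else 0 := by
    intro u
    by_cases h : G.Adj v u
    · have : u ≠ v := fun e => G.loopless.irrefl v (e ▸ h)
      simp [h, this]
    · simp [h]
  rw [Finset.sum_congr rfl fun u _ => h u, Finset.sum_boole, ← G.neighborFinset_eq_filter,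
    G.card_neighborFinset_eq_degree]

theorem Lap_ind_ne {v w : V} (hw : w ≠ v) :
    Lap G (ind v) w = if G.Adj v w then -1 else 0 := by
  unfold Lap ind
  have h : ∀ u, (if G.Adj w u then ((if w = v then (1 : ℤ) else 0) - if u = v then 1 else 0) else 0)
      = if u = v then (if G.Adj v w then (-1 : ℤ) else 0) else 0 := by
    intro u
    by_cases hu : u = v
    · subst hu
      simp [hw, G.adj_comm]
    · simp [hw, hu]
  rw [Finset.sum_congr rfl fun u _ => h u]
  simp

theorem topple_eq {c : Config V} {v : V} (hv : Ready G c v) (w : V) :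
    (topple G c v w : ℤ) = c w - Lap G (ind v) w := by
  unfold topple
  unfold Ready at hv
  by_cases hw : w = v
  · subst hw
    rw [if_pos rfl, Lap_ind_self, Nat.cast_sub hv]
  · rw [if_neg hw, Lap_ind_ne G hw]
    split_ifs <;> push_cast <;> ring

theorem reach_eq {c c' : Config V} (h : ReflTransGen (Topples G) c c') :
    ∃ f : V → ℤ, ∀ w, (c' w : ℤ) = c w - Lap G f w := by
  induction h with
  | refl =>
      refine ⟨fun _ => 0, fun w => ?_⟩
      simp [Lap]
  | tail _ h ih =>
      obtain ⟨f, hf⟩ := ih
      obtain ⟨v, hv, rfl⟩ := h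
      refine ⟨fun u => f u + ind v u, fun w => ?_⟩
      rw [topple_eq G hv, hf, Lap_add]
      ring

theorem reach_total {c c' : Config V} (h : ReflTransGen (Topples G) c c') :
    ∑ w, c' w = ∑ w, c w := by
  obtain ⟨f, hf⟩ := reach_eq G h
  have h1 : ∑ w, (c' w : ℤ) = ∑ w, (c w : ℤ) := by
    rw [Finset.sum_congr rfl fun w _ => hf w, Finset.sum_sub_distrib, sum_Lap, sub_zero]
  exact_mod_cast h1

theorem add_total (c : Config V) (v : V) : ∑ w, addToken c v w = ∑ w, c w + 1 := by
  have h : ∀ w, addToken c v w = c w + if w = v then 1 else 0 := by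
    intro w; unfold addToken; split_ifs <;> rfl
  rw [Finset.sum_congr rfl fun w _ => h w, Finset.sum_add_distrib]
  simp

/-- the maximal stable configuration -/
def top : Config V := fun v => G.degree v - 1

theorem stable_le {c : Config V} (h : Stable G c) (v : V) : c v ≤ top G v := by
  have := h v
  unfold Ready at this
  unfold top
  omega

theorem total_le {c : Config V} (h : Stable G c) : ∑ v, c v ≤ ∑ v, top G v :=
  Finset.sum_le_sum fun v _ => stable_le G h v

theorem eq_top {c : Config V} (h : Stable G c) (ht : ∑ v, top G v ≤ ∑ v, c v) : c = top G := by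
  funext v
  by_contra hne
  have h1 : ∑ v, c v < ∑ v, top G v :=
    Finset.sum_lt_sum (fun v _ => stable_le G h v)
      ⟨v, Finset.mem_univ v, lt_of_le_of_ne (stable_le G h v) hne⟩
  omega

/-! ### Non-bridges -/

theorem energy (f : V → ℤ) :
    ∑ i, ∑ j, (if G.Adj i j then (f i - f j) ^ 2 else 0) = 2 * ∑ i, f i * Lap G f i := by
  have h1 : ∑ i, f i * Lap G f i = ∑ i, ∑ j, if G.Adj i j then f i * (f i - f j) else 0 := by
    refine Finset.sum_congr rfl fun i _ => ?_
    unfold Lap
    rw [Finset.mul_sum]
    refine Finset.sum_congr rfl fun j _ => ?_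
    split_ifs <;> ring
  have h2 : ∑ i, f i * Lap G f i = ∑ i, ∑ j, if G.Adj i j then f j * (f j - f i) else 0 := by
    rw [h1, Finset.sum_comm]
    refine Finset.sum_congr rfl fun u _ => Finset.sum_congr rfl fun w _ => ?_
    simp only [G.adj_comm w u]
  have h3 : 2 * ∑ i, f i * Lap G f i = ∑ i, f i * Lap G f i + ∑ i, f i * Lap G f i := by ring
  rw [h3]
  nth_rewrite 1 [h1]
  rw [h2, ← Finset.sum_add_distrib]
  refine Finset.sum_congr rfl fun i _ => ?_
  rw [← Finset.sum_add_distrib]
  refine Finset.sum_congr rfl fun j _ => ?_
  split_ifs <;> ring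

theorem no_pot {x y : V} (hxy : G.Adj x y) (hG : G.Connected) (hb : ¬ G.IsBridge s(x, y)) :
    ¬ ∃ f : V → ℤ, ∀ w, Lap G f w = ind x w - ind y w := by
  rintro ⟨f, hf⟩
  have hne : x ≠ y := hxy.ne
  have hE := energy G f
  have hs : ∑ i, f i * Lap G f i = f x - f y := by
    rw [Finset.sum_congr rfl fun i _ => by rw [hf i, mul_sub], Finset.sum_sub_distrib]
    simp [ind]
  rw [hs, ← Finset.sum_product'] at hE
  have key : ∀ a b, (G.deleteEdges {s(x, y)}).Adj a b → f a = f b := by
    intro a b hab
    rw [SimpleGraph.deleteEdges_adj] at hab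
    obtain ⟨hab, hn⟩ := hab
    by_contra hfab
    have hn1 : ¬ (a = x ∧ b = y) := by
      rintro ⟨rfl, rfl⟩; exact hn rfl
    have hn2 : ¬ (a = y ∧ b = x) := by
      rintro ⟨rfl, rfl⟩; exact hn (Sym2.eq_swap)
    have hsub : ({(x, y), (y, x), (a, b)} : Finset (V × V)) ⊆ univ ×ˢ univ := by
      intro p _; simp
    have hle := Finset.sum_le_sum_of_subset_of_nonneg (f := fun p : V × V =>
      if G.Adj p.1 p.2 then (f p.1 - f p.2) ^ 2 else 0) hsub
      (fun p _ _ => by split_ifs <;> positivity)
    rw [Finset.sum_insert, Finset.sum_insert, Finset.sum_singleton] at hle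
    · simp only [hxy, hxy.symm, hab, if_true] at hle
      rw [hE] at hle
      have hpos : 1 ≤ (f a - f b) ^ 2 := by
        have : 0 < (f a - f b) ^ 2 := by
          have : f a - f b ≠ 0 := sub_ne_zero.2 hfab
          positivity
        omega
      have h0 : 0 ≤ (f x - f y) * (f x - f y - 1) := by
        rcases le_or_gt (f x - f y) 0 with h | h
        · nlinarith
        · nlinarith
      nlinarith
    · simp only [Finset.mem_singleton, Prod.mk.injEq]
      rintro ⟨rfl, rfl⟩; exact hn2 ⟨rfl, rfl⟩
    · simp only [Finset.mem_insert, Finset.mem_singleton, Prod.mk.injEq]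
      rintro (⟨rfl, _⟩ | ⟨rfl, rfl⟩)
      · exact hne rfl
      · exact hn1 ⟨rfl, rfl⟩
  have hH := hG.connected_delete_edge_of_not_isBridge hb
  have hconst : ∀ a b, f a = f b := by
    intro a b
    obtain ⟨p⟩ := hH.preconnected a b
    induction p with
    | nil => rfl
    | cons h _ ih => exact (key _ _ h).trans ih
  have h1 := hf x
  have h2 : Lap G f x = 0 := by
    unfold Lap
    apply Finset.sum_eq_zero
    intro u _
    rw [hconst x u]; simp
  rw [h2] at h1
  simp [ind, hne] at h1

/-- The key lemma: if every move from `c` is non-ending, then no move from `c` leads to the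
maximal stable configuration (`G` connected with an edge that is not a bridge). -/
theorem key_lemma {x y : V} (hxy : G.Adj x y) (hG : G.Connected) (hb : ¬ G.IsBridge s(x, y))
    {c : Config V} (hall : ∀ v, ∃ c', StabilizesTo G (addToken c v) c') (v : V) (c' : Config V)
    (h : StabilizesTo G (addToken c v) c') : c' ≠ top G := by
  rintro rfl
  have ht := reach_total G h.1
  rw [add_total] at ht
  have hpot : ∀ u, ∃ f : V → ℤ, ∀ w, (top G w : ℤ) = addToken c u w - Lap G f w := by
    intro u
    obtain ⟨d, hd⟩ := hall u
    have ht' := reach_total G hd.1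
    rw [add_total] at ht'
    have : d = top G := eq_top G hd.2 (by omega)
    subst this
    exact reach_eq G hd.1
  have hadd : ∀ u w, (addToken c u w : ℤ) = c w + ind u w := by
    intro u w; unfold addToken ind; split_ifs <;> simp
  obtain ⟨f, hf⟩ := hpot x
  obtain ⟨g, hg⟩ := hpot y
  apply no_pot G hxy hG hb
  refine ⟨fun u => f u - g u, fun w => ?_⟩
  have h1 := hf w
  have h2 := hg w
  rw [hadd] at h1 h2
  rw [Lap_sub]
  linarith

/-! ### Parity -/

theorem move_of_ne_top {c : Config V} (hc : Stable G c) (hne : c ≠ top G) :
    ∃ v, StabilizesTo G (addToken c v) (addToken c v) := by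
  have : ∃ v, c v ≠ top G v := by
    by_contra h
    push Not at h
    exact hne (funext h)
  obtain ⟨v, hv⟩ := this
  have hlt : c v < top G v := lt_of_le_of_ne (stable_le G hc v) hv
  refine ⟨v, ReflTransGen.refl, fun w => ?_⟩
  unfold Ready addToken
  unfold top at hlt
  have := hc w
  unfold Ready at this
  split_ifs with h
  · subst h; omega
  · exact this

theorem parity {x y : V} (hxy : G.Adj x y) (hG : G.Connected) (hb : ¬ G.IsBridge s(x, y)) :
    ∀ j : ℕ, (∀ c : Config V, Stable G c → Forces G (2 * j) Player.Min c →
        Forces G (2 * j + 1) Player.Min c) ∧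
      (∀ c : Config V, Stable G c → c ≠ top G → Forces G (2 * j + 1) Player.Max c →
        Forces G (2 * j + 2) Player.Max c) := by
  intro j
  induction j with
  | zero =>
      refine ⟨fun c _ _ => trivial, fun c hc hne _ => ?_⟩
      obtain ⟨v, hv⟩ := move_of_ne_top G hc hne
      exact ⟨v, _, hv, trivial⟩
  | succ j ih =>
      have hMin : ∀ c : Config V, Stable G c → Forces G (2 * (j + 1)) Player.Min c →
          Forces G (2 * (j + 1) + 1) Player.Min c := by
        intro c _ hF v
        obtain ⟨c', h1, h2⟩ := hF v
        refine ⟨c', h1, ?_⟩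
        refine ih.2 c' h1.2 ?_ h2
        exact key_lemma G hxy hG hb (fun u => (hF u).imp fun _ h => h.1) v c' h1
      refine ⟨hMin, ?_⟩
      intro c hc hne hF
      obtain ⟨v, c', h1, h2⟩ := hF
      exact ⟨v, c', h1, hMin c' h1.2 h2⟩

theorem forces_le [Nonempty V] : ∀ (k : ℕ) (p : Player) (c : Config V), Stable G c →
    Forces G k p c → k + ∑ v, c v ≤ ∑ v, top G v + 1
  | 0, _, c, hc, _ => by have := total_le G hc; omega
  | 1, _, c, hc, _ => by have := total_le G hc; omega
  | k + 2, Player.Max, c, hc, h => by
      obtain ⟨v, c', h1, h2⟩ := h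
      have := forces_le (k + 1) Player.Min c' h1.2 h2
      have ht := reach_total G h1.1
      rw [add_total] at ht
      omega
  | k + 2, Player.Min, c, hc, h => by
      obtain ⟨c', h1, h2⟩ := h (Classical.arbitrary V)
      have := forces_le (k + 1) Player.Max c' h1.2 h2
      have ht := reach_total G h1.1
      rw [add_total] at ht
      omega

/-- **Q1, affirmative.** If `G` is a finite connected graph that is not a tree, then
`T_max(G)` is even and `T_min(G)` is odd; in particular they differ. -/
theorem result (hG : G.Connected) (hT : ¬ G.IsTree) :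
    IsGreatest {k | Forces G k Player.Max (fun _ => 0)} (value G Player.Max) ∧
    IsGreatest {k | Forces G k Player.Min (fun _ => 0)} (value G Player.Min) ∧
    Even (value G Player.Max) ∧ Odd (value G Player.Min) ∧
    value G Player.Max ≠ value G Player.Min := by
  have hac : ¬ G.IsAcyclic := fun h => hT ⟨hG, h⟩
  rw [SimpleGraph.isAcyclic_iff_forall_adj_isBridge] at hac
  push Not at hac
  obtain ⟨x, y, hxy, hb⟩ := hac
  have hne : x ≠ y := hxy.ne
  have : Nonempty V := ⟨x⟩
  have : Nontrivial V := ⟨x, y, hne⟩
  have hdeg : ∀ v, 0 < G.degree v := fun v => hG.preconnected.degree_pos_of_nontrivial v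
  have hst : Stable G (fun _ : V => 0) := by
    intro v h
    have h1 := hdeg v
    have h2 : G.degree v ≤ 0 := h
    omega
  have hgr : ∀ p, IsGreatest {k | Forces G k p (fun _ => 0)} (value G p) := by
    intro p
    have hbd : BddAbove {k | Forces G k p (fun _ => 0)} := by
      refine ⟨∑ v, top G v + 1, ?_⟩
      intro k hk
      have := forces_le G k p _ hst hk
      omega
    have hn : {k | Forces G k p (fun _ => 0)}.Nonempty := ⟨0, by cases p <;> trivial⟩
    exact ⟨Nat.sSup_mem hn hbd, fun k hk => le_csSup hbd hk⟩
  have htop : (fun _ : V => 0) ≠ top G := by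
    intro h
    have hH := hG.connected_delete_edge_of_not_isBridge hb
    obtain ⟨z, hz⟩ := hH.preconnected.exists_adj_of_nontrivial x
    rw [SimpleGraph.deleteEdges_adj] at hz
    have hzy : z ≠ y := by
      rintro rfl; exact hz.2 rfl
    have h2 : 2 ≤ G.degree x := by
      rw [← G.card_neighborFinset_eq_degree, ← Finset.card_pair hzy]
      apply Finset.card_le_card
      intro w hw
      rw [Finset.mem_insert, Finset.mem_singleton] at hw
      rw [SimpleGraph.mem_neighborFinset]
      rcases hw with rfl | rfl
      · exact hz.1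
      · exact hxy
    have h3 : 0 = top G x := congrFun h x
    unfold top at h3
    omega
  have hMax : Even (value G Player.Max) := by
    by_contra h
    rw [Nat.not_even_iff_odd] at h
    obtain ⟨j, hj⟩ := h
    have h1 := (hgr Player.Max).1
    have h2 := (hgr Player.Max).2
    have h3 := (parity G hxy hG hb j).2 _ hst htop (hj ▸ h1)
    have h4 : 2 * j + 2 ≤ value G Player.Max := h2 h3
    omega
  have hMin : Odd (value G Player.Min) := by
    by_contra h
    rw [Nat.not_odd_iff_even] at h
    obtain ⟨j, hj⟩ := h
    have h1 := (hgr Player.Min).1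
    have h2 := (hgr Player.Min).2
    have hj' : value G Player.Min = 2 * j := by omega
    have h3 := (parity G hxy hG hb j).1 _ hst (hj' ▸ h1)
    have h4 : 2 * j + 1 ≤ value G Player.Min := h2 h3
    omega
  refine ⟨hgr _, hgr _, hMax, hMin, ?_⟩
  intro h
  rw [h] at hMax
  exact (Nat.not_odd_iff_even.2 hMax) hMin

end Pool.Agent.Results.MP_424b19_co.MinMovesLast
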